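import Mathlib
import Pool.Agent.Y947.RL.Stm

/-!
Project RL of helper947, job GEN, by helper929: energy bound from the product over a relation.
-/

set_option autoImplicit false

open Finset Polynomial Module Pool.Agent.H388SL Pool.Agent.Y947.DL Pool.Agent.Y947.RL

namespace Pool.Agent.Y929.RL

lemma pow_cong {a : ℂ} {m s t : ℕ} (ha : a ^ m = 1) (h : s ≡ t [MOD m]) : a ^ s = a ^ t := by
  rw [pow_eq_pow_mod s ha, pow_eq_pow_mod t ha, show s % m = t % m from h]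

lemma pow_inj {a b : ℂ} {m t : ℕ} (hm : 0 < m) (ha : a ^ m = 1) (hb : b ^ m = 1)
    (ht : t.Coprime m) (h : a ^ t = b ^ t) : a = b := by
  have hb0 : b ≠ 0 := by
    intro h0
    rw [h0, zero_pow hm.ne'] at hb
    exact zero_ne_one hb
  have h1 : (a / b) ^ t = 1 := by rw [div_pow, h, div_self (pow_ne_zero _ hb0)]
  have h2 : (a / b) ^ m = 1 := by rw [div_pow, ha, hb, div_one]
  have h3 : orderOf (a / b) ∣ Nat.gcd t m :=
    Nat.dvd_gcd (orderOf_dvd_of_pow_eq_one h1) (orderOf_dvd_of_pow_eq_one h2)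
  rw [show Nat.gcd t m = 1 from ht] at h3
  have h4 := orderOf_eq_one_iff.1 (Nat.dvd_one.1 h3)
  rwa [div_eq_one_iff_eq hb0] at h4

theorem genE : S_TR → S_GEN := by
  classical
  intro hTR K _ _ m ζ α hctx ε hε p q s t u hp hq hs ht hsut hne
  obtain ⟨-, -, hTR3⟩ := hTR K m ζ hctx.hm hctx.hζ
  have hm := hctx.hm
  have hprim : ∀ σ : K →ₐ[ℚ] ℂ, IsPrimitiveRoot (σ ζ) m := fun σ =>
    hctx.hζ.map_of_injective σ.injective
  have hone : ∀ σ : K →ₐ[ℚ] ℂ, (σ ζ) ^ m = 1 := fun σ => (hprim σ).pow_eq_one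
  -- `u` is coprime to `m`
  have hu : u.Coprime m := by
    have h1 : Nat.gcd s m = Nat.gcd (u * t) m := Nat.ModEq.gcd_eq hsut
    rw [show Nat.gcd s m = 1 from hs] at h1
    exact Nat.Coprime.coprime_mul_right (show Nat.Coprime (u * t) m from h1.symm)
  have hφ : 0 < Nat.totient m := Nat.totient_pos.2 hm
  -- the inverse of `u`
  obtain ⟨u', hu'⟩ : ∃ u' : ℕ, u' * u ≡ 1 [MOD m] := by
    refine ⟨u ^ (Nat.totient m - 1), ?_⟩
    rw [← pow_succ, Nat.sub_add_cancel hφ]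
    exact Nat.ModEq.pow_totient hu
  have hu'c : u'.Coprime m := by
    have h1 : Nat.gcd (u' * u) m = Nat.gcd 1 m := Nat.ModEq.gcd_eq hu'
    rw [Nat.gcd_one_left] at h1
    exact Nat.Coprime.coprime_mul_right (show Nat.Coprime (u' * u) m from h1)
  obtain ⟨D, hD⟩ : ∃ D : ℝ, D = (finrank ℚ K : ℝ) / Nat.totient m := ⟨_, rfl⟩
  have hcard : ∀ ω : ℂ, IsPrimitiveRoot ω m → ((cls ζ ω).card : ℝ) = D := by
    intro ω hω
    have h1 := hTR3 ω hω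
    have h2 : ((cls ζ ω).card : ℝ) * Nat.totient m = finrank ℚ K := by exact_mod_cast h1
    have h3 : (Nat.totient m : ℝ) ≠ 0 := by exact_mod_cast hφ.ne'
    rw [hD, eq_div_iff h3, h2]
  -- the relation
  have hrel : ∀ σ τ : K →ₐ[ℚ] ℂ, (σ ζ) ^ s = (τ ζ) ^ t ↔ τ ζ = (σ ζ) ^ u := by
    intro σ τ
    have h1 : (σ ζ) ^ s = ((σ ζ) ^ u) ^ t := by
      rw [← pow_mul]
      exact pow_cong (hone σ) hsut
    have h2 : ((σ ζ) ^ u) ^ m = 1 := by rw [← pow_mul, mul_comm, pow_mul, hone, one_pow]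
    rw [h1]
    constructor
    · intro h
      exact pow_inj hm (hone τ) h2 ht h.symm
    · intro h
      rw [h]
  have hrel2 : ∀ σ τ : K →ₐ[ℚ] ℂ, τ ζ = (σ ζ) ^ u ↔ σ ζ = (τ ζ) ^ u' := by
    intro σ τ
    constructor
    · intro h
      rw [h, ← pow_mul, pow_cong (hone σ) (show u * u' ≡ 1 [MOD m] by rw [mul_comm]; exact hu'),
        pow_one]
    · intro h
      rw [h, ← pow_mul, pow_cong (hone τ) hu', pow_one]
  -- the energy as a sum over the partners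
  have hEP : EP ζ α ε p q s t = ∑ σ : K →ₐ[ℚ] ℂ, ∑ τ ∈ cls ζ ((σ ζ) ^ u),
      -Real.log ‖1 - ww α ε σ ^ p * starRingEnd ℂ (ww α ε τ ^ q)‖ := by
    unfold EP cls
    refine Finset.sum_congr rfl fun σ _ => ?_
    rw [Finset.sum_filter]
    refine Finset.sum_congr rfl fun τ _ => ?_
    by_cases h : τ ζ = (σ ζ) ^ u
    · rw [if_pos ((hrel σ τ).2 h), if_pos h]
    · rw [if_neg (fun h' => h ((hrel σ τ).1 h')), if_neg h]
  have hnz : ∀ σ : K →ₐ[ℚ] ℂ, ∀ τ ∈ cls ζ ((σ ζ) ^ u), ‖(σ α) ^ p - (τ α) ^ q‖ ≠ 0 :=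
    fun σ τ hτ => norm_ne_zero_iff.mpr (sub_ne_zero.mpr (hne σ τ hτ))
  have h1 : ∀ σ ∈ (Finset.univ : Finset (K →ₐ[ℚ] ℂ)), ∀ τ ∈ cls ζ ((σ ζ) ^ u),
      -Real.log ‖1 - ww α ε σ ^ p * starRingEnd ℂ (ww α ε τ ^ q)‖ ≤
      -Real.log ‖(σ α) ^ p - (τ α) ^ q‖ + p * (Real.log (max 1 ‖σ α‖) + ε σ) +
        q * (Real.log (max 1 ‖τ α‖) + ε τ) := by
    intro σ _ τ hτ'
    rw [ww_mul α ε σ τ hp.ne' hq.ne']
    have hσ := hε σ
    have hτ := hε τ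
    have hs0 : 0 ≤ (1 - ε σ) ^ p * (1 - ε τ) ^ q :=
      mul_nonneg (pow_nonneg (by linarith) _) (pow_nonneg (by linarith) _)
    have hs1 : (1 - ε σ) ^ p * (1 - ε τ) ^ q < 1 := by
      have h2 : (1 - ε σ) ^ p < 1 := pow_lt_one₀ (by linarith) (by linarith) hp.ne'
      have h3 : (1 - ε τ) ^ q ≤ 1 := pow_le_one₀ (by linarith) (by linarith)
      have h4 : 0 ≤ (1 - ε σ) ^ p := pow_nonneg (by linarith) _
      nlinarith
    have hne' : σ (α ^ p) ≠ τ (α ^ q) := by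
      rw [map_pow, map_pow]
      exact hne σ τ hτ'
    have h2 := pair_log hne' hs0 hs1
    have h3 := one_sub_mul_pow_le hσ.1.le (by linarith) hτ.1.le (by linarith) p q
    rw [map_pow σ, map_pow τ, log_max_pow, log_max_pow, ← map_pow σ, ← map_pow τ] at h2
    rw [← map_pow σ, ← map_pow τ]
    linarith
  have h2 := Finset.sum_le_sum fun σ hσ => Finset.sum_le_sum fun τ hτ => h1 σ hσ τ hτ
  rw [hEP]
  refine h2.trans (le_of_eq ?_)
  -- the logarithm of the product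
  have hlog : Real.log (∏ σ : K →ₐ[ℚ] ℂ, ∏ τ ∈ cls ζ ((σ ζ) ^ u), ‖(σ α) ^ p - (τ α) ^ q‖) =
      ∑ σ : K →ₐ[ℚ] ℂ, ∑ τ ∈ cls ζ ((σ ζ) ^ u), Real.log ‖(σ α) ^ p - (τ α) ^ q‖ := by
    rw [Real.log_prod]
    · exact Finset.sum_congr rfl fun σ _ => Real.log_prod fun τ hτ => hnz σ τ hτ
    · intro σ _
      exact Finset.prod_ne_zero_iff.mpr fun τ hτ => hnz σ τ hτ
  -- the terms with `σ`
  have hA : ∑ σ : K →ₐ[ℚ] ℂ, ∑ τ ∈ cls ζ ((σ ζ) ^ u), p * (Real.log (max 1 ‖σ α‖) + ε σ) =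
      D * (p * (lam α + ∑ σ, ε σ)) := by
    have h3 : ∀ σ : K →ₐ[ℚ] ℂ, ∑ τ ∈ cls ζ ((σ ζ) ^ u), p * (Real.log (max 1 ‖σ α‖) + ε σ) =
        D * (p * (Real.log (max 1 ‖σ α‖) + ε σ)) := by
      intro σ
      rw [Finset.sum_const, nsmul_eq_mul, hcard _ ((hprim σ).pow_of_coprime u hu)]
    rw [Finset.sum_congr rfl fun σ _ => h3 σ, ← Finset.mul_sum, ← Finset.mul_sum,
      Finset.sum_add_distrib]
    rfl
  -- the terms with `τ`
  have hB : ∑ σ : K →ₐ[ℚ] ℂ, ∑ τ ∈ cls ζ ((σ ζ) ^ u), q * (Real.log (max 1 ‖τ α‖) + ε τ) =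
      D * (q * (lam α + ∑ σ, ε σ)) := by
    have h3 : ∀ σ : K →ₐ[ℚ] ℂ, ∑ τ ∈ cls ζ ((σ ζ) ^ u), q * (Real.log (max 1 ‖τ α‖) + ε τ) =
        ∑ τ : K →ₐ[ℚ] ℂ, if σ ζ = (τ ζ) ^ u' then q * (Real.log (max 1 ‖τ α‖) + ε τ) else 0 := by
      intro σ
      unfold cls
      rw [Finset.sum_filter]
      refine Finset.sum_congr rfl fun τ _ => ?_
      by_cases h : τ ζ = (σ ζ) ^ u
      · rw [if_pos h, if_pos ((hrel2 σ τ).1 h)]
      · rw [if_neg h, if_neg (fun h' => h ((hrel2 σ τ).2 h'))]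
    have h4 : ∀ τ : K →ₐ[ℚ] ℂ, (∑ σ : K →ₐ[ℚ] ℂ,
        if σ ζ = (τ ζ) ^ u' then q * (Real.log (max 1 ‖τ α‖) + ε τ) else 0) =
        D * (q * (Real.log (max 1 ‖τ α‖) + ε τ)) := by
      intro τ
      rw [← Finset.sum_filter, Finset.sum_const, nsmul_eq_mul]
      have h5 := hcard _ ((hprim τ).pow_of_coprime u' hu'c)
      unfold cls at h5
      rw [← h5]
    rw [Finset.sum_congr rfl fun σ _ => h3 σ, Finset.sum_comm, Finset.sum_congr rfl fun τ _ => h4 τ,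
      ← Finset.mul_sum, ← Finset.mul_sum, Finset.sum_add_distrib]
    rfl
  rw [← hD, hlog]
  simp only [Finset.sum_add_distrib, Finset.sum_neg_distrib] at hA hB ⊢
  rw [hA, hB]
  ring

end Pool.Agent.Y929.RL
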